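import Pool.Agent.LibHPF.P9
import Pool.Agent.LibW64.Defs

/-! # The Hilbert property with respect to etale covers -/

set_option autoImplicit false
open AlgebraicGeometry CategoryTheory

namespace Pool.Agent.LibHP

/-- The Hilbert property with respect to finite etale covers: for finitely many nontrivial finite etale
covers `Y i → X`, `Y i` integral, the `k`-points of `X` which lift to no `Y i` are dense. -/
def EtaleHP {k : Type} [Field k] {X : Scheme.{0}} (f : X ⟶ Spec (CommRingCat.of k)) : Prop :=
  ∀ (n : ℕ) (Y : Fin n → Scheme.{0}) (π : ∀ i, Y i ⟶ X),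
    (∀ i, AlgebraicGeometry.IsIntegral (Y i)) →
    (∀ i, AlgebraicGeometry.IsFinite (π i)) →
    (∀ i, AlgebraicGeometry.Surjective (π i)) →
    (∀ i, ¬ IsIso (π i)) →
    (∀ i, AlgebraicGeometry.Etale (π i)) →
    Dense {x : X | ∃ s : Spec (CommRingCat.of k) ⟶ X, s ≫ f = 𝟙 _ ∧
      x ∈ Set.range s.base ∧
      ∀ i (t : Spec (CommRingCat.of k) ⟶ Y i), t ≫ π i ≠ s}

/-- The extension `K[X]/(T)` of the function field `K` of `X` is unramified at all points of
codimension one. -/
def UnramPoly {X : Scheme.{0}} [IsIntegral X] (T : Polynomial X.functionField) : Prop :=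
  ∀ hT : Irreducible T, letI : Fact (Irreducible T) := ⟨hT⟩
    ∀ x : X, ringKrullDim (X.presheaf.stalk x) = 1 →
      PresAt (algebraMap X.functionField (AdjoinRoot T)) x

end Pool.Agent.LibHP
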