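import Pool.Agent.LibW64E.Defs
import Pool.Agent.LibK3G.CV6

/-! # Row E1: the etale cover of an unramified extension of the function field

Plan. As `cover_of_poly` (LibK3G/CV4.lean) with the cover `π : Y ⟶ X` of `exists_cover`
(LibK3G/CV2.lean) for `M := AdjoinRoot (G.map ...)` (normality of the sections: `X` is smooth; see the
first lines of the proof of `hilbertProp_of_points`, LibHPF/P1.lean: charts `exists_etale_chart`,
`isIntegrallyClosed_of_etale`; from the charts to all affine open sets: the stalks of `X` are integrally
closed, because they are localizations of the sections of the charts, and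
`isIntegrallyClosed_sections`, LibK3G/CV6.lean). New: `π` is etale. Being etale is local on the target
(`AlgebraicGeometry.Etale`: `HasRingHomProperty`/`IsZariskiLocalAtTarget`): for the affine charts `U` of
`exists_etale_chart` `finEt_of_presAt` (LibHP/S2.lean), as it is used in the proof of
`exists_const_of_presAt` (LibHPF/P9.lean), says that the integral closure of `Γ(X, U)` in `M` is etale over
`Γ(X, U)`, and `e` identifies `Γ(Y, π ⁻¹ᵁ U)` with it. -/

set_option autoImplicit false
open AlgebraicGeometry CategoryTheory Polynomial

namespace Pool.Agent.LibHP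

open Pool.Agent.LibK3G in
/-- The cover of `exists_cover`, explicitly. -/
private theorem E1_cover {S : Scheme.{0}} [IsIntegral S] [IsLocallyNoetherian S]
    [CharZero S.functionField]
    (hn : ∀ U : S.Opens, IsAffineOpen U → genericPoint S ∈ U → IsIntegrallyClosed Γ(S, U))
    (M : Type) [Field M] [Algebra S.functionField M] [FiniteDimensional S.functionField M] :
    IsIntegral (genPt (S := S) M).normalization ∧
      IsFinite (genPt (S := S) M).fromNormalization ∧
      Surjective (genPt (S := S) M).fromNormalization ∧
      ∀ (U : S.Opens) (_ : IsAffineOpen U) (hg : genericPoint S ∈ U),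
        ∃ e : Γ((genPt (S := S) M).normalization,
            (genPt (S := S) M).fromNormalization ⁻¹ᵁ U) →+* M, Function.Injective e ∧
          (∀ a, e ((genPt (S := S) M).fromNormalization.app U a) =
            algebraMap S.functionField M (S.presheaf.germ U (genericPoint S) hg a)) ∧
          ∀ z : M, ((algebraMap S.functionField M).comp
            (S.presheaf.germ U (genericPoint S) hg).hom).IsIntegralElem z → z ∈ Set.range e := by
  have hqc : QuasiCompact (genPt (S := S) M) := inferInstance
  have hqs : QuasiSeparated (genPt (S := S) M) := inferInstance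
  have hfin : ∀ (U : S.Opens) (_ : IsAffineOpen U) (_ : genericPoint S ∈ U),
      ((genPt (S := S) M).fromNormalization.app U).hom.Finite := by
    intro U hU hg
    let _ := ((genPt (S := S) M).app U).hom.toAlgebra
    have := hn U hU hg
    have hne : Nonempty U := ⟨⟨_, hg⟩⟩
    have hfr := functionField_isFractionRing_of_isAffineOpen S U hU
    have hnoeth : IsNoetherianRing Γ(S, U) := IsLocallyNoetherian.component_noetherian ⟨U, hU⟩
    have h1 : Module.Finite Γ(S, U) (integralClosure Γ(S, U)
        Γ(Spec (CommRingCat.of M), genPt (S := S) M ⁻¹ᵁ U)) :=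
      Pool.Agent.LibK3G.finite_integralClosure (K := S.functionField) (M := M)
        (genIso M U hg).commRingCatIsoToRingEquiv (fun a => genPt_app M U hg a)
    rw [(genPt (S := S) M).fromNormalization_app hU]
    refine RingHom.Finite.comp (g := ((genPt (S := S) M).normalizationObjIso hU).inv.hom)
      (f := algebraMap _ _) ?_ ?_
    · exact RingHom.Finite.of_surjective _ ((ConcreteCategory.isIso_iff_bijective _).1
        inferInstance).2
    · exact h1
  refine ⟨inferInstance, ?_, ?_, ?_⟩
  · refine { finite_app := fun U hU => ?_ }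
    by_cases hg : genericPoint S ∈ U
    · exact hfin U hU hg
    · have hU0 : U = ⊥ := by
        ext x
        refine ⟨fun hx => hg ?_, fun hx => hx.elim⟩
        exact ((genericPoint_spec S).mem_open_set_iff U.2).2 ⟨x, trivial, hx⟩
      subst hU0
      have : Subsingleton Γ((genPt (S := S) M).normalization,
          (genPt (S := S) M).fromNormalization ⁻¹ᵁ ⊥) :=
        inferInstanceAs (Subsingleton Γ((genPt (S := S) M).normalization, ⊥))
      exact RingHom.Finite.of_surjective _ fun y => ⟨0, Subsingleton.elim _ _⟩
  · have hcl : IsClosed (Set.range (genPt (S := S) M).fromNormalization) :=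
      (genPt (S := S) M).fromNormalization.isClosedMap.isClosed_range
    have hgen : genericPoint S ∈ Set.range (genPt (S := S) M).fromNormalization := by
      refine ⟨(genPt (S := S) M).toNormalization (IsLocalRing.closedPoint M), ?_⟩
      rw [← Scheme.Hom.comp_apply, Scheme.Hom.toNormalization_fromNormalization]
      change S.fromSpecStalk (genericPoint S)
        ((Spec.map (CommRingCat.ofHom (algebraMap S.functionField M))) _) = _
      have h1 : (Spec.map (CommRingCat.ofHom (algebraMap S.functionField M)))
          (IsLocalRing.closedPoint M) = IsLocalRing.closedPoint S.functionField :=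
        Subsingleton.elim _ _
      rw [h1, Scheme.fromSpecStalk_closedPoint]
    refine ⟨fun x => ?_⟩
    have h2 : (Set.univ : Set S) ⊆ Set.range (genPt (S := S) M).fromNormalization := by
      rw [← (genericPoint_spec S), IsClosed.closure_subset_iff hcl, Set.singleton_subset_iff]
      exact hgen
    exact h2 trivial
  · intro U hU hg
    let _ := ((genPt (S := S) M).app U).hom.toAlgebra
    let N := ((genPt (S := S) M).normalizationObjIso hU).commRingCatIsoToRingEquiv
    let G : Γ(Spec (CommRingCat.of M), genPt (S := S) M ⁻¹ᵁ U) ≃+* M :=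
      (genIso M U hg).commRingCatIsoToRingEquiv
    refine ⟨G.toRingHom.comp ((algebraMap (integralClosure Γ(S, U)
      Γ(Spec (CommRingCat.of M), genPt (S := S) M ⁻¹ᵁ U)) _).comp N.toRingHom), ?_, ?_, ?_⟩
    · exact G.injective.comp (Subtype.val_injective.comp N.injective)
    · intro a
      have h1 : N ((genPt (S := S) M).fromNormalization.app U a) = algebraMap _ _ a := by
        rw [(genPt (S := S) M).fromNormalization_app hU]
        exact N.apply_symm_apply _
      change G (algebraMap _ _ (N ((genPt (S := S) M).fromNormalization.app U a))) = _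
      rw [h1]
      exact genPt_app M U hg a
    · rintro z ⟨p, hp, hpz⟩
      have h1 : IsIntegral Γ(S, U) (G.symm z) := by
        refine ⟨p, hp, ?_⟩
        apply G.injective
        rw [map_zero]
        change G.toRingHom _ = 0
        rw [Polynomial.hom_eval₂]
        rw [← hpz]
        congr 1
        · ext a
          exact genPt_app M U hg a
        · exact G.apply_symm_apply z
      refine ⟨N.symm ⟨G.symm z, h1⟩, ?_⟩
      change G (algebraMap _ _ (N (N.symm ⟨G.symm z, h1⟩))) = z
      rw [N.apply_symm_apply]
      exact G.apply_symm_apply z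


/-- The stalks of a smooth integral scheme over a field of characteristic zero are integrally
closed. -/
private theorem E1_stalk {k : Type} [Field k] [CharZero k] {X : Scheme.{0}}
    (f : X ⟶ Spec (CommRingCat.of k)) [IsIntegral X] [Smooth f] (x : X) :
    IsIntegrallyClosed (X.presheaf.stalk x) := by
  obtain ⟨V, hV, hxV, d, ψ, hψ⟩ := exists_etale_chart f x
  have hne : Nonempty V := ⟨⟨_, hxV⟩⟩
  have h1 : IsIntegrallyClosed Γ(X, V) := by
    let _ := ψ.toAlgebra
    have : Algebra.Etale (MvPolynomial (Fin d) k) Γ(X, V) := hψ
    exact isIntegrallyClosed_of_etale k d Γ(X, V)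
  let _ := TopCat.Presheaf.algebra_section_stalk X.presheaf (⟨x, hxV⟩ : V)
  have hloc := hV.isLocalization_stalk ⟨x, hxV⟩
  have hp : (hV.primeIdealOf ⟨x, hxV⟩).asIdeal.primeCompl ≤ nonZeroDivisors Γ(X, V) :=
    Ideal.primeCompl_le_nonZeroDivisors _
  exact isIntegrallyClosed_of_isLocalization (R := Γ(X, V)) _
    (hV.primeIdealOf ⟨x, hxV⟩).asIdeal.primeCompl hp

/-- The normalization in an unramified extension is etale. -/
private theorem E1_etale {k : Type} [Field k] [CharZero k] {X : Scheme.{0}}
    (f : X ⟶ Spec (CommRingCat.of k)) [IsIntegral X] [Smooth f]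
    (M : Type) [Field M] [Algebra X.functionField M] [FiniteDimensional X.functionField M]
    (hpres : ∀ x : X, ringKrullDim (X.presheaf.stalk x) = 1 →
      PresAt (algebraMap X.functionField M) x) [QuasiCompact (Pool.Agent.LibK3G.genPt (S := X) M)]
    [QuasiSeparated (Pool.Agent.LibK3G.genPt (S := X) M)] :
    Etale (Pool.Agent.LibK3G.genPt (S := X) M).fromNormalization := by
  have hjfin : (algebraMap X.functionField M).Finite := by
    rw [RingHom.finite_algebraMap]; infer_instance
  have hcov : S1a_Cov (algebraMap X.functionField M) := by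
    intro x
    obtain ⟨U, hU, hx, m, ψ, hψ⟩ := exists_etale_chart f x
    exact ⟨U, hU, hx, finEt_of_presAt _ hjfin hpres x U hU hx m ψ hψ⟩
  have h1 : QuasiCompact (S1a_g (algebraMap X.functionField M)) :=
    inferInstanceAs (QuasiCompact (Pool.Agent.LibK3G.genPt (S := X) M))
  have h2 : QuasiSeparated (S1a_g (algebraMap X.functionField M)) :=
    inferInstanceAs (QuasiSeparated (Pool.Agent.LibK3G.genPt (S := X) M))
  exact (S1a_pi (algebraMap X.functionField M) hcov).2

theorem W_E1 {k : Type} [Field k] [CharZero k] {X : Scheme.{0}}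
    (f : X ⟶ Spec (CommRingCat.of k)) [IsIntegral X] [Smooth f]
    (T : Polynomial X.functionField) (hT : T.Monic) (hirr : Irreducible T) (h2 : 2 ≤ T.natDegree)
    (hun : UnramPoly T) (U : X.Opens) (hU : IsAffineOpen U) (hg : genericPoint X ∈ U)
    (hne : Nonempty U) (G : Γ(X, U)[X]) (hG : G.Monic)
    (hGT : G.map (algebraMap Γ(X, U) X.functionField) = T) :
    ∃ (Y : Scheme.{0}) (π : Y ⟶ X), IsIntegral Y ∧ IsFinite π ∧ Surjective π ∧ ¬ IsIso π ∧
      Etale π ∧
      ∃ d : Γ(X, U), d ≠ 0 ∧ ∀ (k' : Type) [Field k'] (χ : Γ(X, U) →+* k'), χ d ≠ 0 → ∀ x : k',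
        (G.map χ).IsRoot x → ∃ τ : Γ(Y, π ⁻¹ᵁ U) →+* k', τ.comp (π.app U).hom = χ := by
  subst hGT
  have hnoeth : IsLocallyNoetherian X := LocallyOfFiniteType.isLocallyNoetherian f
  have hcz : CharZero X.functionField :=
    charZero_of_injective_ringHom (toStalk f (genericPoint X)).injective
  have hn : ∀ V : X.Opens, IsAffineOpen V → genericPoint X ∈ V → IsIntegrallyClosed Γ(X, V) :=
    Pool.Agent.LibK3G.isIntegrallyClosed_sections (E1_stalk f)
  have hroot : ∀ c, ¬ (G.map (algebraMap Γ(X, U) X.functionField)).IsRoot c := by
    intro c hc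
    have h3 := Polynomial.degree_eq_one_of_irreducible_of_root hirr hc
    have h4 : (G.map (algebraMap Γ(X, U) X.functionField)).natDegree = 1 :=
      Polynomial.natDegree_eq_of_degree_eq_some h3
    rw [h4] at h2
    exact absurd h2 (by norm_num)
  have hfact : Fact (Irreducible (G.map (algebraMap Γ(X, U) X.functionField))) := ⟨hirr⟩
  have hfr := functionField_isFractionRing_of_isAffineOpen X U hU
  have hfd : FiniteDimensional X.functionField
      (AdjoinRoot (G.map (algebraMap Γ(X, U) X.functionField))) :=
    (hG.map _).finite_adjoinRoot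
  obtain ⟨hY, hfin, hsurj, he⟩ := E1_cover hn
    (AdjoinRoot (G.map (algebraMap Γ(X, U) X.functionField)))
  obtain ⟨e, hei, hea, her⟩ := he U hU hg
  refine ⟨_, _, hY, hfin, hsurj, ?_, E1_etale f _ (hun hirr), ?_⟩
  · intro hiso
    obtain ⟨c, hc⟩ := Pool.Agent.LibK3G.exists_root_of_surjective (R := Γ(X, U))
      (K := X.functionField)
      (M := AdjoinRoot (G.map (algebraMap Γ(X, U) X.functionField)))
      (G.map (algebraMap Γ(X, U) X.functionField)) hirr.ne_zero
      (AdjoinRoot.root _) (by rw [aeval_def]; exact AdjoinRoot.eval₂_root _)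
      ((Pool.Agent.LibK3G.genPt (S := X)
        (AdjoinRoot (G.map (algebraMap Γ(X, U) X.functionField)))).fromNormalization.app U).hom
      ((ConcreteCategory.isIso_iff_bijective _).1 inferInstance).2 e hea her
    exact hroot c hc
  · exact Pool.Agent.LibK3G.exists_lift_of_root G hG hirr _
      (IsFinite.finite_app _ U hU) e hea

end Pool.Agent.LibHP
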