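import Pool.Agent.LibW64E.E1
import Pool.Agent.LibHPF.G12
import Pool.Agent.LibHP.S4

/-! # Row E2: etale covers can be avoided

Plan. Compare the second half of the proof of `hil_of_hilbertProp` (LibK3G/CV6.lean). Given `R`, `R.FG`:
an affine open subset `U` of `X` containing the generic point such that the finitely many generators of
`R` and the coefficients of the `T i` are germs of sections on `U` (`G12_open`, LibHPF/G12.lean, and
`densePts_functionField` for the pattern). `R'` := the image of `Γ(X, U)` in `K` (a `k`-subalgebra, as `k`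
maps to `Γ(X, U)` by `kapU f U`, LibHP/S4.lean), `P i : R'[X]` the lift of `T i`; `G i : Γ(X, U)[X]` the
corresponding polynomial. `W_E1` gives the covers `Y i` and `d i`; reindex `ι` by `Fin n`
(`Finite.equivFin`). `EtaleHP` gives a `k`-point `s` in `X.basicOpen (∏ i, d i)` which lifts to no `Y i`;
`exists_hom_of_section` (LibK3G/CV4.lean) gives `χ : Γ(X, U) →+* k`; `φ : R' →ₐ[k] k` is `χ` through the
isomorphism `Γ(X, U) ≃ R'` (the germ map is injective). A root of `(P i).map φ` gives a lift `τ` and
a section of `Y i` over `s`, as at the end of the proof of `hil_of_hilbertProp`. -/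

set_option autoImplicit false
open AlgebraicGeometry CategoryTheory Polynomial

namespace Pool.Agent.LibHP

theorem W_E2 {k : Type} [Field k] [CharZero k] {X : Scheme.{0}}
    (f : X ⟶ Spec (CommRingCat.of k)) [IsIntegral X] [Smooth f] (h : EtaleHP f)
    [Algebra k X.functionField]
    (hk : ∀ c : k, algebraMap k X.functionField c = toStalk f (genericPoint X) c)
    (ι : Type) [Finite ι] (T : ι → Polynomial X.functionField)
    (hT : ∀ i, (T i).Monic ∧ Irreducible (T i) ∧ 2 ≤ (T i).natDegree) (hE : ∀ i, UnramPoly (T i)) :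
    Avoid k T := by
  classical
  intro R hR
  obtain ⟨S, hS⟩ := hR
  have hfinC : (⋃ i : ι, ((T i).coeffs : Set X.functionField)).Finite :=
    Set.finite_iUnion fun i => Finset.finite_toSet _
  -- the subalgebra generated by the generators of `R` and the coefficients
  obtain ⟨R2, hR2R, hR2C, hR2fg⟩ : ∃ R2 : Subalgebra k X.functionField, R ≤ R2 ∧
      (∀ i, ∀ c ∈ (T i).coeffs, c ∈ R2) ∧ R2.FG := by
    refine ⟨Algebra.adjoin k ((S : Set X.functionField) ∪
      (⋃ i : ι, ((T i).coeffs : Set X.functionField))), ?_, ?_, ?_⟩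
    · rw [← hS]
      exact Algebra.adjoin_mono Set.subset_union_left
    · intro i c hc
      exact Algebra.subset_adjoin (Or.inr (Set.mem_iUnion.2 ⟨i, hc⟩))
    · refine ⟨S ∪ hfinC.toFinset, ?_⟩
      rw [Finset.coe_union, Set.Finite.coe_toFinset]
  have hft : Algebra.FiniteType k R2 := Subalgebra.fg_iff_finiteType R2 |>.1 hR2fg
  have hlift : ∀ i, ∃ P : R2[X], P.map (R2.val : R2 →+* X.functionField) = T i := by
    intro i
    have h1 : T i ∈ Polynomial.lifts (R2.val : R2 →+* X.functionField) := by
      rw [Polynomial.lifts_iff_coeff_lifts]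
      intro n
      by_cases hc : (T i).coeff n = 0
      · rw [hc]
        exact ⟨0, map_zero _⟩
      · exact ⟨⟨(T i).coeff n, hR2C i _ (Polynomial.coeff_mem_coeffs hc)⟩, rfl⟩
    exact (Polynomial.mem_lifts _).1 h1
  choose P hP using hlift
  have hPm : ∀ i, (P i).Monic := by
    intro i
    refine Polynomial.monic_of_injective (f := (R2.val : R2 →+* X.functionField))
      Subtype.val_injective ?_
    rw [hP i]
    exact (hT i).1
  obtain ⟨U, hU, hg, G, hG, hGk⟩ := Pool.Agent.LibK3G.exists_factor_open f hk R2 R2.val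
  have hne : Nonempty U := ⟨⟨_, hg⟩⟩
  have hG' : (algebraMap Γ(X, U) X.functionField).comp G = (R2.val : R2 →+* X.functionField) :=
    RingHom.ext hG
  have hGT : ∀ i, ((P i).map G).map (algebraMap Γ(X, U) X.functionField) = T i := by
    intro i
    rw [Polynomial.map_map, hG', hP i]
  choose Y π hY hfin hsurj hiso het d hd hlift using fun i => W_E1 f (T i) (hT i).1 (hT i).2.1
    (hT i).2.2 (hE i) U hU hg hne ((P i).map G) ((hPm i).map G) (hGT i)
  obtain ⟨n, ⟨e⟩⟩ := Finite.exists_equiv_fin ι
  have hdense := h n (fun j => Y (e.symm j)) (fun j => π (e.symm j)) (fun j => hY _)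
    (fun j => hfin _) (fun j => hsurj _) (fun j => hiso _) (fun j => het _)
  have hD0 : (∏ j, d (e.symm j)) ≠ 0 := Finset.prod_ne_zero_iff.2 fun j _ => hd _
  have hgD : genericPoint X ∈ X.basicOpen (∏ j, d (e.symm j)) := by
    rw [X.mem_basicOpen _ (genericPoint X) hg]
    refine IsUnit.mk0 _ fun h3 => hD0 ?_
    apply germ_injective_of_isIntegral X _ hg
    rw [h3, map_zero]
  obtain ⟨x, hxD, σ, hσ, ⟨y, hy⟩, hno⟩ := hdense.inter_open_nonempty _
    (X.basicOpen (∏ j, d (e.symm j))).isOpen ⟨_, hgD⟩
  have hy0 : y = IsLocalRing.closedPoint k := Subsingleton.elim _ _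
  have hσx : σ (IsLocalRing.closedPoint k) = x := by
    rw [← hy0]
    exact hy
  obtain ⟨χ, hχ, hσχ, hχd⟩ := Pool.Agent.LibK3G.exists_hom_of_section f U hU σ hσ (by
    rw [hσx]
    exact X.basicOpen_le _ hxD)
  have hχ0 : ∀ j, χ (d (e.symm j)) ≠ 0 := by
    intro j h0
    apply hχd (∏ j, d (e.symm j)) (by rw [hσx]; exact hxD)
    rw [map_prod]
    exact Finset.prod_eq_zero (Finset.mem_univ j) h0
  refine ⟨R2, P, { χ.comp G with commutes' := fun c => ?_ }, hR2R, hP, fun i z hz => ?_⟩
  · change χ (G (algebraMap k R2 c)) = c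
    rw [hGk, hχ]
  · have h1 : ((P i).map (χ.comp G)).IsRoot z := hz
    rw [← Polynomial.map_map] at h1
    have hj : e.symm (e i) = i := e.symm_apply_apply i
    have h2 : χ (d i) ≠ 0 := by
      have := hχ0 (e i)
      rwa [hj] at this
    obtain ⟨τ, hτ⟩ := hlift i k χ h2 z h1
    have hni : ∀ t : Spec (CommRingCat.of k) ⟶ Y i, t ≫ π i ≠ σ := by
      have h3 := hno (e i)
      rwa [hj] at h3
    have := hfin i
    apply hni (Spec.map (CommRingCat.ofHom τ) ≫ (hU.preimage (π i)).fromSpec)
    have h3 := IsAffineOpen.SpecMap_appLE_fromSpec (π i) hU (hU.preimage (π i)) le_rfl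
    rw [Category.assoc, ← h3, ← Category.assoc, ← Spec.map_comp, hσχ, ← hτ]
    rw [Scheme.Hom.appLE_eq_app]
    rfl

end Pool.Agent.LibHP
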