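import Pool.Agent.LibW64E.Defs
import Pool.Agent.LibW64.G1
import Pool.Agent.LibW64.I3
import Pool.Agent.LibHPF.G12

/-! # Row E3: simply connected varieties with dense points

SHORT/MEDIUM. Plan. For every `i` the second alternative of `W_G1` is excluded by `hE i`
(`Fact (Irreducible (T i))`), so `h i, q i, g i` with `((h i).map ..).comp (q i) = T i * g i`.
`W_empty` with `densePts_functionField f hk hdense` for the empty family, `W_const` for `h`
(`Sum.elim _ (Empty family)`), `W_reindex` along `Sum.inl`, `W_comp`. -/

set_option autoImplicit false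
open AlgebraicGeometry CategoryTheory Polynomial

namespace Pool.Agent.LibHP

theorem W_E3 {k : Type} [Field k] [CharZero k] {X : Scheme.{0}}
    (f : X ⟶ Spec (CommRingCat.of k)) [IsIntegral X] [Smooth f] [IsSeparated f] [QuasiCompact f]
    (hsc : GeomSimplyConnected f)
    (hdense : Dense {x : X | ∃ s : Spec (CommRingCat.of k) ⟶ X, s ≫ f = 𝟙 _ ∧
      x ∈ Set.range s.base})
    [Algebra k X.functionField]
    (hk : ∀ c : k, algebraMap k X.functionField c = toStalk f (genericPoint X) c)
    (ι : Type) [Finite ι] (T : ι → Polynomial X.functionField)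
    (hT : ∀ i, (T i).Monic ∧ Irreducible (T i) ∧ 2 ≤ (T i).natDegree) (hE : ∀ i, UnramPoly (T i)) :
    Avoid k T := by
  have halg : algebraMap k X.functionField = toStalk f (genericPoint X) := RingHom.ext hk
  have h1 : ∀ i, ∃ (h : Polynomial k) (q g : Polynomial X.functionField),
      (∀ x, ¬ h.IsRoot x) ∧ (h.map (algebraMap k X.functionField)).comp q = T i * g := by
    intro i
    obtain ⟨hm, hirr, h2⟩ := hT i
    haveI : Fact (Irreducible (T i)) := ⟨hirr⟩
    rcases W_G1 f hsc (T i) hm h2 with ⟨h, q, g, hr, he⟩ | ⟨x, hx, hP⟩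
    · exact ⟨h, q, g, hr, by rw [halg]; exact he⟩
    · exact absurd (hE i hirr x hx) hP
  choose h q g hr he using h1
  refine W_comp (fun i => (h i).map (algebraMap k X.functionField)) T
    (fun i => ⟨q i, g i, he i⟩) ?_
  have h2 := W_const h hr (fun e : Empty => (isEmptyElim e : Polynomial X.functionField))
    (W_empty (densePts_functionField f hk hdense) _)
  exact W_reindex Sum.inl _ h2

end Pool.Agent.LibHP
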