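import Pool.Agent.LibW64.I6

/-! # Row E4: the abstract induction relative to a class `E` of polynomials

Plan. Copy the proof of `W_I6` (LibW64/I6.lean). In the step: if `E (T i)` for all `i`, use `hE`;
otherwise choose `i0` with `¬ E (T i0)` and apply `H`. (`ι` empty is contained in the first case.) -/

set_option autoImplicit false
open Polynomial

namespace Pool.Agent.LibHP

private theorem E4_card {ι : Type} [Finite ι] (p : ι → Prop) (i0 : ι) (h0 : ¬ p i0) {n : ℕ}
    (hc : Nat.card ι ≤ n + 1) : Nat.card {i // p i} ≤ n := by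
  have h : Nat.card {i // p i} < Nat.card ι := by
    classical
    have := Fintype.ofFinite ι
    rw [Nat.card_eq_fintype_card, Nat.card_eq_fintype_card]
    exact Fintype.card_subtype_lt h0
  omega

theorem W_E4 (k K : Type) [Field k] [Field K] [Algebra k K] (E : K[X] → Prop)
    (hE : ∀ (ι : Type) [Finite ι] (T : ι → K[X]),
      (∀ i, (T i).Monic ∧ Irreducible (T i) ∧ 2 ≤ (T i).natDegree) → (∀ i, E (T i)) → Avoid k T)
    (H : ∀ T : K[X], T.Monic → Irreducible T → 2 ≤ T.natDegree → ¬ E T →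
      ∃ Z C : K[X] → Prop, Z T ∧
        (∀ (ι κ : Type) [Finite ι] [Finite κ] (T' : ι → K[X]) (S : κ → K[X]),
          (∀ i, (T' i).Monic ∧ Irreducible (T' i) ∧ Z (T' i)) →
          (∀ j, (S j).Monic ∧ Irreducible (S j) ∧ C (S j)) → Avoid k S →
            Avoid k (Sum.elim T' S)) ∧
        ∀ T' : K[X], T'.Monic → Irreducible T' → 2 ≤ T'.natDegree → ¬ Z T' →
          ∃ h q g : K[X], h.Monic ∧ Irreducible h ∧ 2 ≤ h.natDegree ∧ C h ∧ h.comp q = T' * g) :
    ∀ (ι : Type) [Finite ι] (T : ι → K[X]),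
      (∀ i, (T i).Monic ∧ Irreducible (T i) ∧ 2 ≤ (T i).natDegree) → Avoid k T := by
  suffices hmain : ∀ n : ℕ, ∀ (ι : Type) [Finite ι] (T : ι → K[X]), Nat.card ι ≤ n →
      (∀ i, (T i).Monic ∧ Irreducible (T i) ∧ 2 ≤ (T i).natDegree) → Avoid k T by
    intro ι _ T hT
    exact hmain (Nat.card ι) ι T le_rfl hT
  intro n
  induction n with
  | zero =>
    intro ι _ T hc hT
    have hEm : IsEmpty ι := by
      rcases isEmpty_or_nonempty ι with hE | hN
      · exact hE
      · have := Nat.card_pos (α := ι)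
        omega
    exact hE ι T hT fun i => (hEm.false i).elim
  | succ n ih =>
    intro ι _ T hc hT
    classical
    by_cases hall : ∀ i, E (T i)
    · exact hE ι T hT hall
    push Not at hall
    obtain ⟨i0, hi0⟩ := hall
    obtain ⟨Z, C, hZ0, hstep, hC⟩ := H (T i0) (hT i0).1 (hT i0).2.1 (hT i0).2.2 hi0
    have hcard : Nat.card {i // ¬ Z (T i)} ≤ n :=
      E4_card (fun i => ¬ Z (T i)) i0 (by simpa using hZ0) hc
    have hch : ∀ j : {i // ¬ Z (T i)}, ∃ h q g : K[X],
        h.Monic ∧ Irreducible h ∧ 2 ≤ h.natDegree ∧ C h ∧ h.comp q = T j * g := fun j =>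
      hC (T j) (hT j).1 (hT j).2.1 (hT j).2.2 j.2
    choose h q g hm hirr hdeg hCh hqg using hch
    have h1 : Avoid k h := ih {i // ¬ Z (T i)} h hcard (fun j => ⟨hm j, hirr j, hdeg j⟩)
    have h2 := hstep {i // Z (T i)} {i // ¬ Z (T i)} (fun i => T i) h
      (fun i => ⟨(hT i).1, (hT i).2.1, i.2⟩) (fun j => ⟨hm j, hirr j, hCh j⟩) h1
    have hsum : Avoid k (Sum.elim (fun i : {i // Z (T i)} => T i)
        (fun i : {i // ¬ Z (T i)} => T i)) := by
      refine W_comp _ _ ?_ h2
      rintro (i | j)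
      · exact ⟨X, 1, by simp⟩
      · exact ⟨q j, g j, hqg j⟩
    have h4 := W_reindex
      (fun i : ι => if hi : Z (T i) then (Sum.inl ⟨i, hi⟩ : {i // Z (T i)} ⊕ {i // ¬ Z (T i)})
        else Sum.inr ⟨i, hi⟩) _ hsum
    have h5 : (fun j => (Sum.elim (fun i : {i // Z (T i)} => T i)
        (fun i : {i // ¬ Z (T i)} => T i))
        (if hi : Z (T j) then (Sum.inl ⟨j, hi⟩ : {i // Z (T i)} ⊕ {i // ¬ Z (T i)})
          else Sum.inr ⟨j, hi⟩)) = T := by
      funext j
      by_cases hj : Z (T j)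
      · rw [dif_pos hj]; rfl
      · rw [dif_neg hj]; rfl
    rwa [h5] at h4

end Pool.Agent.LibHP
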