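import Pool.Agent.LibW64E.E2
import Pool.Agent.LibW64E.E3
import Pool.Agent.LibW64E.E4
import Pool.Agent.LibW64P.PS
import Pool.Agent.LibW64P.PC
import Pool.Agent.LibW64P.PE
import Pool.Agent.LibW64P.PR
import Pool.Agent.LibW64P.P8
import Pool.Agent.LibW64.F7

/-! # Row E5: webs of fibrations, final statement

The Hilbert property for varieties with a web of fibrations whose fibres have the weak Hilbert
property, over varieties which are simply connected with dense points or have the Hilbert property
for etale covers. -/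

set_option autoImplicit false
open AlgebraicGeometry CategoryTheory

namespace Pool.Agent.LibHP

/-- the alternative `FibreWHP` -/
private theorem e5_fibre (k : Type) [Field k] [NumberField k] {X : Scheme.{0}}
    (f : X ⟶ Spec (CommRingCat.of k)) [IsIntegral X] [Smooth f]
    [Algebra k X.functionField]
    (halg : ∀ c : k, algebraMap k X.functionField c = toStalk f (genericPoint X) c)
    (hK : DensePts k X.functionField) (x : X) (hx : ringKrullDim (X.presheaf.stalk x) = 1)
    (hF : FibreWHP f x) (T : Polynomial X.functionField) (hTm : T.Monic)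
    [hfact : Fact (Irreducible T)]
    (hnp : ¬ PresAt (algebraMap X.functionField (AdjoinRoot T)) x) :
    ∃ Z : Polynomial X.functionField → Prop, Z T ∧
      ∀ (ι κ : Type) [Finite ι] [Finite κ] (T' : ι → Polynomial X.functionField)
        (S : κ → Polynomial X.functionField),
        (∀ i, (T' i).Monic ∧ Z (T' i)) → (∀ j, (S j).Monic) → Avoid k S →
          Avoid k (Sum.elim T' S) := by
  obtain ⟨V, T1, _, _, j, g, t, v, W, hj, ht, hgt, hjv, hgv, hW, HW⟩ := hF
  subst hjv
  have hlf : LocallyOfFiniteType (j ≫ f) := inferInstance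
  obtain ⟨e, hebij, he1, he2, he3⟩ := W_PE f j hj
  have hk' : ∀ c : k, algebraMap k X.functionField c =
      e (toStalk (j ≫ f) (genericPoint V) c) := fun c => (halg c).trans (he1 c)
  have hgη : g.base (genericPoint V) = genericPoint T1 := by
    have h1 : genericPoint V ⤳ v := genericPoint_specializes v
    have h2 : g.base (genericPoint V) ⤳ g.base v := h1.map g.continuous
    rw [hgv] at h2
    exact (h2.antisymm (genericPoint_specializes _)).eq
  obtain ⟨T0, hT0, hηT, -⟩ := exists_isAffineOpen_mem_and_subset (X := T1) (x := genericPoint T1)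
    (U := ⊤) trivial
  have hηT' : genericPoint V ∈ g ⁻¹ᵁ T0 := by
    change g.base (genericPoint V) ∈ T0
    rw [hgη]
    exact hηT
  have hvT : v ∈ g ⁻¹ᵁ T0 := by
    change g.base v ∈ T0
    rw [hgv]
    exact hηT
  obtain ⟨L, A0, hA0, hch, hpt⟩ := W_P8 (j ≫ f) t g hgt X.functionField e hebij hk' T0 hT0 hηT'
  have hcl : ClosedSub L := W_PC (j ≫ f) t g hgt W HW X.functionField e hebij hk' T0 hT0 hηT' L A0
    hA0 hW hch hK
  have hne : ∃ c : X.functionField, c ∉ L := by
    by_contra hcon
    push Not at hcon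
    have hsurj : Function.Surjective
        (algebraMap (X.presheaf.stalk (j.base v)) X.functionField) := by
      intro c
      obtain ⟨a, ha⟩ := hpt v hgv c (hcon c)
      obtain ⟨b, hb⟩ := he2 v a
      exact ⟨b, by rw [← hb, ha]⟩
    have hbij : Function.Bijective (algebraMap (X.presheaf.stalk (j.base v)) X.functionField) :=
      ⟨IsFractionRing.injective _ _, hsurj⟩
    have hfield : IsField (X.presheaf.stalk (j.base v)) :=
      (RingEquiv.ofBijective _ hbij).toMulEquiv.isField (Field.toIsField _)
    have h0 := ringKrullDim_eq_zero_of_isField hfield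
    rw [hx] at h0
    exact one_ne_zero h0
  obtain ⟨V1, hV1, hvV1, hV1s⟩ := exists_isAffineOpen_mem_and_subset (X := V) (x := v)
    (U := g ⁻¹ᵁ T0) hvT
  have hle : V1 ≤ g ⁻¹ᵁ T0 := hV1s
  have hη1 : genericPoint V ∈ V1 :=
    (genericPoint_specializes v).mem_open V1.isOpen hvV1
  obtain ⟨A1, hA1, hMA1⟩ := hch V1 hV1 hle hη1
  have hfd : FiniteDimensional X.functionField (AdjoinRoot T) := hTm.finite_adjoinRoot
  refine ⟨fun T' => ∃ (_ : Fact (Irreducible T')) (V1 : V.Opens) (_ : IsAffineOpen V1)
    (_ : V1 ≤ g ⁻¹ᵁ T0) (hη1 : genericPoint V ∈ V1) (A1 : Subalgebra k X.functionField),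
      IsChart e V1 hη1 A1 ∧ RamHor A1 A0 (AdjoinRoot T'), ?_, ?_⟩
  · exact ⟨hfact, V1, hV1, hle, hη1, A1, hA1, W_PR f j hj g v hgv hx e hebij (he2 v) (he3 v)
      (AdjoinRoot T) hnp T0 hηT' A0 hA0 V1 hV1 hle hvV1 hη1 A1 hA1⟩
  · intro ι κ _ _ T' S hT' hS hav
    exact W_PS (j ≫ f) t g hgt W HW X.functionField e hebij hk' T0 hT0 hηT' L A0 hA0 hW hcl hne hch
      ι κ T' S (fun i => (hT' i).1) (fun i => (hT' i).2) hS hav

theorem main_web_gen (k : Type) [Field k] [NumberField k] {X : Scheme.{0}}
    (f : X ⟶ Spec (CommRingCat.of k)) [IsIntegral X] [Smooth f] [IsSeparated f] [QuasiCompact f]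
    (hbase : (GeomSimplyConnected f ∧
      Dense {x : X | ∃ s : Spec (CommRingCat.of k) ⟶ X, s ≫ f = 𝟙 _ ∧
        x ∈ Set.range s.base}) ∨ EtaleHP f)
    (H : ∀ x : X, ringKrullDim (X.presheaf.stalk x) = 1 →
      FibreWHP f x ∨
      (∃ L : Subfield X.functionField, (∀ c : k, toStalk f (genericPoint X) c ∈ L) ∧
        (∀ c ∈ L, ∃ a : X.presheaf.stalk x,
          algebraMap (X.presheaf.stalk x) X.functionField a = c) ∧
        FibreDominated L) ∨
      ∀ l : ℕ, l.Prime → ∃ m : ℕ, ¬ l ∣ m ∧ CurveMeets f x m) :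
    HilbertProp f := by
  classical
  have hdense : Dense {x : X | ∃ s : Spec (CommRingCat.of k) ⟶ X, s ≫ f = 𝟙 _ ∧
      x ∈ Set.range s.base} := by
    rcases hbase with h | h
    · exact h.2
    · refine (h 0 (fun i => i.elim0) (fun i => i.elim0) (fun i => i.elim0) (fun i => i.elim0)
        (fun i => i.elim0) (fun i => i.elim0) (fun i => i.elim0)).mono ?_
      rintro x ⟨s, hs, hxs, -⟩
      exact ⟨s, hs, hxs⟩
  let algK : Algebra k X.functionField := (toStalk f (genericPoint X)).toAlgebra
  have halg : ∀ c : k, algebraMap k X.functionField c = toStalk f (genericPoint X) c := fun _ => rfl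
  have cz : CharZero X.functionField :=
    charZero_of_injective_ringHom (toStalk f (genericPoint X)).injective
  have hK : DensePts k X.functionField := densePts_functionField f halg hdense
  have key : ∀ (ι : Type) [Finite ι] (T : ι → Polynomial X.functionField),
      (∀ i, (T i).Monic ∧ Irreducible (T i) ∧ 2 ≤ (T i).natDegree) → Avoid k T := by
    refine W_E4 k X.functionField (fun T => UnramPoly T) ?_ ?_
    · intro ι _ T hT hE
      rcases hbase with h | h
      · exact W_E3 f h.1 hdense halg ι T hT hE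
      · exact W_E2 f h halg ι T hT hE
    intro T hTm hTi hT2 hnE
    have hfact : Fact (Irreducible T) := ⟨hTi⟩
    obtain ⟨x, hx, hnp⟩ : ∃ x : X, ringKrullDim (X.presheaf.stalk x) = 1 ∧
        ¬ PresAt (algebraMap X.functionField (AdjoinRoot T)) x := by
      by_contra hcon
      push Not at hcon
      exact hnE fun _ x hx => hcon x hx
    have hfd : FiniteDimensional X.functionField (AdjoinRoot T) :=
      (AdjoinRoot.powerBasis hTi.ne_zero).finite
    rcases H x hx with hF | ⟨L, hkL, hLO, hF⟩ | hcur
    · obtain ⟨Z, hZ, hstep⟩ := e5_fibre k f halg hK x hx hF T hTm hnp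
      refine ⟨Z, fun _ => True, hZ, ?_, ?_⟩
      · intro ι κ _ _ T' S hT' hS hav
        exact hstep ι κ T' S (fun i => ⟨(hT' i).1, (hT' i).2.2⟩) (fun j => (hS j).1) hav
      · intro T' hm' hi' h2' _
        exact ⟨T', Polynomial.X, 1, hm', hi', h2', trivial, by simp⟩
    · obtain ⟨r, σ, hσL, hLc, hG2⟩ := W_G2 L hF
      have hσk : ∀ c : k, σ (algebraMap k X.functionField c) =
          algebraMap k (RF X.functionField r) c := by
        intro c
        rw [halg, hσL _ (hkL c),
          IsScalarTower.algebraMap_apply k X.functionField (RF X.functionField r)]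
        rfl
      refine ⟨fun T' => ∀ z : RF (AlgebraicClosure X.functionField) r, T'.eval₂ (sbar σ) z ≠ 0,
        fun h => ∀ i, h.coeff i ∈ L, ?_, ?_, ?_⟩
      · intro z hz
        obtain ⟨-, α, hα, hgen⟩ := hG2 T hTm ⟨hTi⟩ hT2 ⟨z, hz⟩
        exact hnp (W_G3 f x hx L hLc hLO (AdjoinRoot T) α hα hgen)
      · intro ι κ _ _ T' S hT' hS hav
        exact W_I1 k X.functionField r σ hσk ι κ T' S (fun i => (hT' i).1)
          (fun i => (hT' i).2.2) (fun j n => hσL _ ((hS j).2.2 n)) hav
      · intro T' hm' hi' h2' hz'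
        have hz'' : ∃ z : RF (AlgebraicClosure X.functionField) r,
            T'.eval₂ (sbar σ) z = 0 := by
          push Not at hz'
          exact hz'
        obtain ⟨⟨h, q, g, h1, h2, h3, h4, h5⟩, -⟩ := hG2 T' hm' ⟨hi'⟩ h2' hz''
        exact ⟨h, q, g, h1, h2, h3, h4, h5⟩
    · by_contra hno
      apply hnp
      apply presAt_of_div' f (AdjoinRoot T) x hx
      intro l hl
      obtain ⟨m, hlm, τ, g, hτk, hτ, hgi, hloc⟩ := hcur l hl
      obtain ⟨σ, hσk, hσv, hσd⟩ := W_G4 k X.functionField τ hτk hτ
      refine ⟨m, hlm, X.functionField, inferInstance, 1, σ, ?_, hσd _ g m hgi hloc⟩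
      have hz : ∃ z : RF (AlgebraicClosure X.functionField) 1, T.eval₂ (sbar σ) z = 0 := by
        by_contra hz
        push Not at hz
        refine hno ⟨fun T' => ∀ z : RF (AlgebraicClosure X.functionField) 1,
          T'.eval₂ (sbar σ) z ≠ 0, fun _ => True, hz, ?_, ?_⟩
        · intro ι κ _ _ T' S hT' hS hav
          exact W_I2 k X.functionField 1 σ hσk hσv ι κ T' S (fun i => (hT' i).1)
            (fun i => (hT' i).2.2) (fun j => (hS j).1) hav
        · intro T' hm' hi' h2' _
          exact ⟨T', Polynomial.X, 1, hm', hi', h2', trivial, by simp⟩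
      obtain ⟨z, hz⟩ := hz
      exact allEmb_of_root σ (W_G6 σ hσv) T hTm z hz
  refine hilbertProp_of_points k f fun A _ _ _ _ _ _ _ htow ι _ P hP hroot => ?_
  have htw : IsScalarTower k A X.functionField :=
    IsScalarTower.of_algebraMap_eq (fun c => (htow c).symm)
  exact W_I5 k X.functionField key A ι P hP hroot

end Pool.Agent.LibHP
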